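import Pool.Agent.H.MP_7c306c_al.Main

namespace Pool.Agent.Results.MP_7c306c_al.Q1

open Pool.Agent.H.MP_7c306c_al

theorem result (F : Type*) [Field F] (hF : ringChar F ≠ 2)
    (L : Type*) [AddCommGroup L] [Module F L] (b : Module.Basis ℕ F L)
    (A0 A1 : Submodule F (ExteriorAlgebra F L)) (hc : IsCompl A0 A1)
    (h00 : A0 * A0 ≤ A0) (h01 : A0 * A1 ≤ A1) (h10 : A1 * A0 ≤ A1) (h11 : A1 * A1 ≤ A0) :
    ∃ B0 B1 : Submodule F (ExteriorAlgebra F L), IsCompl B0 B1 ∧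
      B0 * B0 ≤ B0 ∧ B0 * B1 ≤ B1 ∧ B1 * B0 ≤ B1 ∧ B1 * B1 ≤ B0 ∧
      (∀ i, ExteriorAlgebra.ι F (b i) ∈ B0 ∨ ExteriorAlgebra.ι F (b i) ∈ B1) ∧
      ∃ f : ExteriorAlgebra F L ≃ₐ[F] ExteriorAlgebra F L,
        (∀ x ∈ A0, f x ∈ B0) ∧ (∀ x ∈ A1, f x ∈ B1) := by
  have h2 : (2 : F) ≠ 0 := Ring.two_ne_zero hF
  obtain ⟨φ, ha, hφ, e0, e1⟩ := grading_inv h2 A0 A1 hc h00 h01 h10 h11
  obtain ⟨Γ, hΓ⟩ := main_inv h2 b ha hφ
  have hm : ∀ {X Y Z : Submodule F (ExteriorAlgebra F L)}, X * Y ≤ Z →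
      X.comap Γ.toLinearMap * Y.comap Γ.toLinearMap ≤ Z.comap Γ.toLinearMap := by
    intro X Y Z h
    rw [Submodule.mul_le]
    intro m hm n hn
    have : Γ m * Γ n ∈ Z := h (Submodule.mul_mem_mul hm hn)
    simpa using this
  refine ⟨A0.comap Γ.toLinearMap, A1.comap Γ.toLinearMap, ?_, hm h00, hm h01, hm h10, hm h11,
    fun i => (hΓ i).imp (e0 _) (e1 _), Γ.symm, fun x hx => by simpa using hx,
    fun x hx => by simpa using hx⟩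
  exact (Submodule.orderIsoMapComap Γ.toLinearEquiv).symm.isCompl hc

end Pool.Agent.Results.MP_7c306c_al.Q1
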